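import Pool.Agent.TH56.CM.Heavy

/-!
# The steps with a prescribed root
-/

set_option autoImplicit false

namespace Pool.Agent.TH56.CM

open Finset Pool.Agent.H115R2 Pool.Agent.TH56.CL.RootAux
open Pool.Agent.TH56.CT (Enum Good)
open Pool.Agent.TH56.CL (Ord Jmp lvl Lvl enu dfs)
open Pool.Agent.TH368.GD (DL)

/-- roots and weights for a prescribed root -/
theorem root_at (V : Type) [Fintype V] [DecidableEq V] (T : SimpleGraph V) (hT : T.IsTree)
    (hm : 1 ≤ T.edgeSet.ncard) (r : V) : ∃ (par : V → V) (w : V → ℕ),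
    par r = r ∧ (∀ v, ∃ n, par^[n] v = r) ∧ (∀ v, v ≠ r → T.Adj v (par v)) ∧
    (∀ x y, T.Adj x y → (x ≠ r ∧ par x = y) ∨ (y ≠ r ∧ par y = x)) ∧
    (∀ x, (∀ v, v ≠ r → par v ≠ x) → w x = 0) ∧
    (∀ x, (∃ v, v ≠ r ∧ par v = x) →
      w x = max 1 (∑ v ∈ univ.filter (fun v => v ≠ r ∧ par v = x), w v)) ∧
    (w r = 1 ∨ w r ≤ {x : V | 2 ≤ (T.neighborSet x).ncard ∧
      {y : V | T.Adj x y ∧ 2 ≤ (T.neighborSet y).ncard}.ncard ≤ 1}.ncard) := by
  classical
  obtain ⟨par0, hp0⟩ := exists_root T hT r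
  obtain ⟨par, hpar⟩ : ∃ par : V → V, par = fun x => if x = r then r else par0 x := ⟨_, rfl⟩
  have hpr : par r = r := by rw [hpar]; simp
  have hpx : ∀ x, x ≠ r → par x = par0 x := by
    intro x hx
    rw [hpar]
    simp [hx]
  have hp : Root T r par := by
    refine ⟨?_, ?_, ?_⟩
    · intro x hx
      rw [hpx x hx]
      exact hp0.adj x hx
    · intro x hx
      rw [hpx x hx]
      exact hp0.dist x hx
    · intro a b hab
      rcases hp0.cov a b hab with h | h
      · left
        exact ⟨h.1, by rw [hpx a h.1]; exact h.2⟩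
      · right
        exact ⟨h.1, by rw [hpx b h.1]; exact h.2⟩
  obtain ⟨w, hw0, hw1⟩ := exists_w r par (fun x => T.dist r x) hp.dist
  refine ⟨par, w, hpr, ?_, ?_, hp.cov, ?_, ?_, ?_⟩
  · have key : ∀ n, ∀ v, T.dist r v = n → ∃ n, par^[n] v = r := by
      intro n
      induction n with
      | zero =>
        intro v hv
        refine ⟨0, ?_⟩
        by_contra hne
        have := hp.dist v hne
        omega
      | succ n ih =>
        intro v hv
        have hne : v ≠ r := by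
          rintro rfl
          rw [SimpleGraph.dist_self] at hv
          omega
        have h1 := hp.dist v hne
        obtain ⟨k, hk⟩ := ih (par v) (by omega)
        exact ⟨k + 1, by rw [Function.iterate_succ_apply]; exact hk⟩
    intro v
    exact key _ v rfl
  · intro v hv
    exact (hp.adj v hv).symm
  · intro x hx
    apply hw0
    rw [Finset.eq_empty_iff_forall_notMem]
    intro v hv
    obtain ⟨h1, h2⟩ := mem_ch.1 hv
    exact hx v h1 h2
  · rintro x ⟨v, h1, h2⟩
    exact hw1 x ⟨v, mem_ch.2 ⟨h1, h2⟩⟩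
  · -- the root has a child
    have hch : (ch r par r).Nonempty := by
      have hv : ∃ v, v ≠ r := by
        have h1 : T.edgeSet.Nonempty := by
          rw [← Set.ncard_pos (Set.toFinite _)]
          exact hm
        obtain ⟨e, he⟩ := h1
        induction e using Sym2.ind with
        | _ a b =>
          rw [SimpleGraph.mem_edgeSet] at he
          by_cases ha : a = r
          · exact ⟨b, fun h => he.ne (ha.trans h.symm)⟩
          · exact ⟨a, ha⟩
      obtain ⟨v0, hv0⟩ := hv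
      obtain ⟨v, hv, hmin⟩ := Finset.exists_min_image (univ.filter (fun v => v ≠ r))
        (fun v => T.dist r v) ⟨v0, by simpa using hv0⟩
      rw [Finset.mem_filter] at hv
      refine ⟨v, mem_ch.2 ⟨hv.2, ?_⟩⟩
      by_contra hne
      have h1 := hmin (par v) (by simpa using hne)
      have h2 := hp.dist v hv.2
      omega
    have hwr := w_root r par w hw0 hw1
    by_cases h1 : w r = 1
    · exact Or.inl h1
    · right
      have h2 : 1 ≤ w r := by
        rw [hw1 r hch]
        exact le_max_left _ _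
      have hex : ∃ v ∈ ch r par r, w v ≠ 0 := by
        by_contra hc
        push Not at hc
        apply h1
        rw [hw1 r hch, Finset.sum_eq_zero hc]
        rfl
      have hsub : ((univ.filter (fun x => (ch r par x).Nonempty ∧
          ∀ v ∈ ch r par x, w v = 0) : Finset V) : Set V) ⊆
          {x : V | 2 ≤ (T.neighborSet x).ncard ∧
            {y : V | T.Adj x y ∧ 2 ≤ (T.neighborSet y).ncard}.ncard ≤ 1} := by
        intro x hx
        rw [Finset.mem_coe, Finset.mem_filter] at hx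
        have hxr : x ≠ r := by
          rintro rfl
          obtain ⟨v, hv, hwv⟩ := hex
          exact hwv (hx.2.2 v hv)
        refine mem_end T r par hp x hxr hx.2.1 ?_
        intro v hv
        have h3 := hx.2.2 v hv
        by_contra hc
        have h4 := hw1 v (Finset.nonempty_iff_ne_empty.2 hc)
        have h5 : 1 ≤ max 1 (∑ u ∈ ch r par v, w u) := le_max_left _ _
        omega
      have h3 := Set.ncard_le_ncard hsub (Set.toFinite _)
      rw [Set.ncard_coe_finset, ← hwr] at h3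
      exact h3

/-- a depth-first order of the vertices of a tree with the weights of helper56 -/
theorem exists_ord_at {V : Type} [Fintype V] {T : SimpleGraph V} (hTree : T.IsTree)
    (hm1 : 1 ≤ T.edgeSet.ncard) (r : V) : ∃ (v : ℕ → V) (p w : ℕ → ℕ), v 0 = r ∧
    Ord T.edgeSet.ncard p w ∧
    (∀ i j, i ≤ T.edgeSet.ncard → j ≤ T.edgeSet.ncard → v i = v j → i = j) ∧
    (∀ x : V, ∃ i ≤ T.edgeSet.ncard, v i = x) ∧
    (∀ x y : V, T.Adj x y → ∃ i, 1 ≤ i ∧ i ≤ T.edgeSet.ncard ∧
      ((v i = x ∧ v (p i) = y) ∨ (v i = y ∧ v (p i) = x))) ∧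
    (∀ i, 1 ≤ i → i ≤ T.edgeSet.ncard → T.Adj (v i) (v (p i))) ∧
    (w 0 = 1 ∨ w 0 ≤ (DL T).ncard) := by
  classical
  obtain ⟨par, w, hpr, hreach, hadj, hadj', hw0, hw1, hL⟩ := root_at V T hTree hm1 r
  have hcard : Fintype.card V = T.edgeSet.ncard + 1 := by
    have h1 := hTree.card_edgeFinset
    have h2 : T.edgeSet.ncard = T.edgeFinset.card := by
      rw [← SimpleGraph.coe_edgeFinset, Set.ncard_coe_finset]
    omega
  obtain ⟨e, p, he0, hinj, hsurj, hpe, hlam, hsrt⟩ := dfs V r par w hpr hreach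
  rw [hcard] at hinj hsurj hpe hlam hsrt
  set m := T.edgeSet.ncard with hmdef
  have hpos : ∀ x : V, x ≠ r → ∃ i, 1 ≤ i ∧ i ≤ m ∧ e i = x := by
    intro x hx
    obtain ⟨i, hi, hix⟩ := hsurj x
    refine ⟨i, ?_, by omega, hix⟩
    rcases Nat.eq_zero_or_pos i with h0 | h0
    · exfalso
      apply hx
      rw [← hix, h0, he0]
    · exact h0
  have hne : ∀ k, 1 ≤ k → k ≤ m → e k ≠ r := by
    intro k hk1 hkm h
    rw [← he0] at h
    have := hinj k 0 (by omega) (by omega) h
    omega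
  have hch : ∀ x ≤ m, ∀ k, 1 ≤ k → k ≤ m → (par (e k) = e x ↔ p k = x) := by
    intro x hx k hk1 hkm
    obtain ⟨h1, h2⟩ := hpe k hk1 (by omega)
    rw [← h2]
    constructor
    · intro h
      exact hinj _ _ (by omega) (by omega) h
    · intro h
      rw [h]
  have hOrd : Ord m p (fun i => w (e i)) := by
    refine ⟨?_, ?_, ?_, ?_, ?_⟩
    · intro i h1 h2
      exact (hpe i h1 (by omega)).1
    · intro k h1 h2 l h3 h4
      exact hlam k h1 (by omega) l h3 h4
    · intro l k h1 h2 h3 h4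
      exact hsrt l k h1 h2 (by omega) h4
    · intro x hx h
      apply hw0
      intro v hv hvx
      obtain ⟨k, hk1, hkm, rfl⟩ := hpos v hv
      exact h k hk1 hkm ((hch x hx k hk1 hkm).1 hvx)
    · rintro x hx ⟨k, hk1, hkm, hkx⟩
      have h1 := hw1 (e x) ⟨e k, hne k hk1 hkm, (hch x hx k hk1 hkm).2 hkx⟩
      change w (e x) = _
      rw [h1]
      congr 1
      have h2 : univ.filter (fun v => v ≠ r ∧ par v = e x) =
          ((Icc 1 m).filter (fun k => p k = x)).image e := by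
        ext v
        simp only [mem_filter, mem_univ, true_and, mem_image, mem_Icc]
        constructor
        · rintro ⟨hv, hvx⟩
          obtain ⟨j, hj1, hjm, rfl⟩ := hpos v hv
          exact ⟨j, ⟨⟨hj1, hjm⟩, (hch x hx j hj1 hjm).1 hvx⟩, rfl⟩
        · rintro ⟨j, ⟨⟨hj1, hjm⟩, hjx⟩, rfl⟩
          exact ⟨hne j hj1 hjm, (hch x hx j hj1 hjm).2 hjx⟩
      rw [h2, sum_image]
      intro i hi j hj hij
      simp only [coe_filter, mem_Icc, Set.mem_ofPred_eq] at hi hj
      exact hinj i j (by omega) (by omega) hij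
  refine ⟨e, p, fun i => w (e i), he0, hOrd, ?_, ?_, ?_, ?_, ?_⟩
  · intro i j hi hj h
    exact hinj i j (by omega) (by omega) h
  · intro x
    obtain ⟨i, hi, hix⟩ := hsurj x
    exact ⟨i, by omega, hix⟩
  · intro x y hxy
    rcases hadj' x y hxy with ⟨h1, h2⟩ | ⟨h1, h2⟩
    · obtain ⟨i, hi1, him, rfl⟩ := hpos x h1
      refine ⟨i, hi1, him, Or.inl ⟨rfl, ?_⟩⟩
      rw [(hpe i hi1 (by omega)).2, h2]
    · obtain ⟨i, hi1, him, rfl⟩ := hpos y h1
      refine ⟨i, hi1, him, Or.inr ⟨rfl, ?_⟩⟩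
      rw [(hpe i hi1 (by omega)).2, h2]
  · intro i h1 h2
    rw [(hpe i h1 (by omega)).2]
    exact hadj (e i) (hne i h1 h2)
  · show w (e 0) = 1 ∨ w (e 0) ≤ _
    rw [he0]
    exact hL

/-- the steps with the root `r` -/
theorem good_at {V : Type} [Fintype V] {T : SimpleGraph V} (hT : T.IsTree)
    (h1 : 1 ≤ T.edgeSet.ncard) (r : V) : ∃ (f : V → ℕ) (M : ℕ), Function.Injective f ∧
      (∀ x, f x ≤ M) ∧ f r = 0 ∧
      (∀ x y x' y', T.Adj x y → T.Adj x' y' →
        Int.natAbs ((f x : ℤ) - (f y : ℤ)) = Int.natAbs ((f x' : ℤ) - (f y' : ℤ)) →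
        s(x, y) = s(x', y')) ∧
      M ≤ T.edgeSet.ncard + 12 * ((DL T).ncard - 1) := by
  obtain ⟨v, p, w, hv0, hO, hinj, hsurj, hadj, -, hw⟩ := exists_ord_at hT h1 r
  obtain ⟨M, c, s, hG, hM⟩ := Pool.Agent.TH368.GD.W3.wrd3 h1 (Pool.Agent.TH368.GD.C2.lv3 hO)
  obtain ⟨f, f1, f2, f3, f4, -⟩ :=
    rooted_of_enum hv0 (enu _ _ _ hO).1 hinj hsurj hadj hG
  refine ⟨f, M, f1, f2, f3, f4, hM.trans ?_⟩
  have h2 := Pool.Agent.TH368.GD.C2.cost_lin hO
  have h3 : ∑ k ∈ Jmp T.edgeSet.ncard p w, ((4 * 2 ^ (lvl p w k / 2) - 1) + 1) =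
      ∑ k ∈ Jmp T.edgeSet.ncard p w, 4 * 2 ^ (lvl p w k / 2) := by
    refine sum_congr rfl fun k _ => ?_
    have : 1 ≤ 2 ^ (lvl p w k / 2) := Nat.one_le_pow _ _ (by norm_num)
    omega
  rw [h3]
  omega

end Pool.Agent.TH56.CM
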