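import Pool.Agent.TH56.CM.Rlx

/-!
# Labellings with distinct sums from range relaxed bipartite labellings
-/

set_option autoImplicit false

namespace Pool.Agent.TH56.CM

theorem Rlx.har {V : Type} [Fintype V] {T : SimpleGraph V} {M : ℕ} (hR : Rlx T M)
    (hT : T.IsTree) (he : 1 ≤ T.edgeSet.ncard) (N : ℕ) (hMN : M ≤ N) :
    ∃ l : V → ZMod N,
      (∀ a b c d, T.Adj a b → T.Adj c d → l a + l b = l c + l d → s(a, b) = s(c, d)) ∧
      (∃ w, ∀ a b, a ≠ w → b ≠ w → l a = l b → a = b) ∧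
      (M < N → Function.Injective l) := by
  classical
  obtain ⟨col, hcol⟩ := Pool.Agent.TH56.CL.exists_col hT
  obtain ⟨θ, f, f1, f2, hθ, hθM, -, f4, f5⟩ := hR.bip he col hcol true
  obtain ⟨g, hg⟩ : ∃ g : V → ℕ, ∀ x, (f x < θ ∧ g x + f x + 1 = θ) ∨ (θ ≤ f x ∧ g x = f x) := by
    refine ⟨fun x => if f x < θ then θ - 1 - f x else f x, fun x => ?_⟩
    simp only
    by_cases h : f x < θ
    · rw [if_pos h]
      exact Or.inl ⟨h, by omega⟩
    · rw [if_neg h]
      exact Or.inr ⟨by omega, rfl⟩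
  have hgM : ∀ x, g x ≤ M := by
    intro x
    have := f2 x
    rcases hg x with h | h <;> omega
  have hginj : ∀ x y, g x = g y → x = y := by
    intro x y h
    apply f1
    rcases hg x with h2 | h2 <;> rcases hg y with h3 | h3 <;> omega
  have hmod : ∀ x y : ℕ, (x : ZMod N) = (y : ZMod N) → x < y + N → y < x + N → x = y := by
    intro x y h h2 h3
    have h4 := (ZMod.natCast_eq_natCast_iff x y N).1 h
    exact Nat.ModEq.eq_of_abs_lt h4 (by rw [abs_lt]; constructor <;> omega)
  -- the sums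
  have hsum : ∀ a b, T.Adj a b → ∃ x y, T.Adj x y ∧ f x < θ ∧ s(a, b) = s(x, y) ∧
      g a + g b = g x + g y ∧ g x + g y + f x + 1 = θ + f y ∧ θ ≤ f y := by
    intro a b hab
    rcases f4 a b hab with h | h
    · refine ⟨a, b, hab, h.1, rfl, rfl, ?_, h.2⟩
      rcases hg a with h2 | h2 <;> rcases hg b with h3 | h3 <;> omega
    · refine ⟨b, a, hab.symm, h.1, Sym2.eq_swap, Nat.add_comm _ _, ?_, h.2⟩
      rcases hg a with h2 | h2 <;> rcases hg b with h3 | h3 <;> omega
  refine ⟨fun x => (g x : ZMod N), ?_, ?_, ?_⟩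
  · intro a b c d hab hcd h
    obtain ⟨x, y, h1, h2, h3, h4, h5, h5'⟩ := hsum a b hab
    obtain ⟨z, w, k1, k2, k3, k4, k5, k5'⟩ := hsum c d hcd
    have h6 : ((g a + g b : ℕ) : ZMod N) = ((g c + g d : ℕ) : ZMod N) := by
      push_cast
      exact h
    have hy := f2 y
    have hw := f2 w
    have h7 := hmod _ _ h6 (by omega) (by omega)
    obtain ⟨h8, h9⟩ := f5 x y z w h1 k1 h2 k2 (by omega)
    rw [h3, k3, h8, h9]
  · by_cases hw : ∃ w, g w = N
    · obtain ⟨w, hw⟩ := hw
      refine ⟨w, fun a b ha hb h => ?_⟩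
      have h2 : g a ≠ g w := fun h => ha (hginj _ _ h)
      have h3 : g b ≠ g w := fun h => hb (hginj _ _ h)
      have h4 := hgM a
      have h5 := hgM b
      exact hginj _ _ (hmod _ _ h (by omega) (by omega))
    · obtain ⟨w⟩ : Nonempty V := hT.1.nonempty
      push Not at hw
      refine ⟨w, fun a b _ _ h => ?_⟩
      have h2 := hw a
      have h3 := hw b
      have h4 := hgM a
      have h5 := hgM b
      exact hginj _ _ (hmod _ _ h (by omega) (by omega))
  · intro hlt a b h
    have h2 : M < N := hlt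
    have h4 := hgM a
    have h5 := hgM b
    exact hginj _ _ (hmod _ _ h (by omega) (by omega))

end Pool.Agent.TH56.CM
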