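import Pool.Agent.TH56.CM.Rlx
import Pool.Agent.TH830.J1013

/-!
# Cyclic decompositions for trees with a vertex with many leaves
-/

set_option autoImplicit false

namespace Pool.Agent.TH56.CM

open Finset Pool.Agent.TH56.CT Pool.Agent.TH56.CT.SupAux Pool.Agent.TH830.J1013

/-- a labelling by residues modulo `2 n + 1` with distinct signed differences gives a cyclic
decomposition -/
theorem cyc_of_inj {W : Type} [Fintype W] (T : SimpleGraph W) (n : ℕ)
    (hE : T.edgeSet.ncard = n) (h : W → ZMod (2 * n + 1))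
    (hne : ∀ a b, T.Adj a b → h b - h a ≠ 0)
    (hdiff : ∀ a b a' b', T.Adj a b → T.Adj a' b' → h b - h a = h b' - h a' → a = a' ∧ b = b')
    (x y : ZMod (2 * n + 1)) (hxy : x ≠ y) :
    ∃! p : ZMod (2 * n + 1) × W × W, T.Adj p.2.1 p.2.2 ∧ h p.2.1 + p.1 = x ∧ h p.2.2 + p.1 = y := by
  classical
  have hne0 : NeZero (2 * n + 1) := ⟨by omega⟩
  let F : T.Dart → ZMod (2 * n + 1) := fun d => h d.snd - h d.fst
  have hF : Function.Injective F := by
    intro d d' hd
    obtain ⟨h1, h2⟩ := hdiff _ _ _ _ d.adj d'.adj hd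
    apply SimpleGraph.Dart.ext
    exact Prod.ext h1 h2
  have hcard : T.edgeFinset.card = n := by
    rw [← hE, ← Set.ncard_coe_finset, SimpleGraph.coe_edgeFinset]
  have himg : Finset.univ.image F = Finset.univ.erase 0 := by
    apply Finset.eq_of_subset_of_card_le
    · intro δ hδ
      obtain ⟨d, -, rfl⟩ := Finset.mem_image.1 hδ
      exact Finset.mem_erase.2 ⟨hne _ _ d.adj, Finset.mem_univ _⟩
    · rw [Finset.card_image_of_injective _ hF, Finset.card_erase_of_mem (Finset.mem_univ _),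
        Finset.card_univ, Finset.card_univ, ZMod.card, SimpleGraph.dart_card_eq_twice_card_edges,
        hcard]
      omega
  have hmem : y - x ∈ Finset.univ.image F := by
    rw [himg]
    exact Finset.mem_erase.2 ⟨fun h2 => hxy (sub_eq_zero.1 h2).symm, Finset.mem_univ _⟩
  obtain ⟨d, -, hd⟩ := Finset.mem_image.1 hmem
  have hd2 : h d.snd - h d.fst = y - x := hd
  refine ⟨(x - h d.fst, d.fst, d.snd), ⟨d.adj, by simp, ?_⟩, ?_⟩
  · show h d.snd + (x - h d.fst) = y
    linear_combination hd2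
  · rintro ⟨i, a, b⟩ ⟨h1, h2, h3⟩
    simp only at h1 h2 h3
    obtain ⟨h4, h5⟩ := hdiff a b d.fst d.snd h1 d.adj (by rw [hd2, ← h2, ← h3]; ring)
    subst h4
    subst h5
    have h6 : i = x - h d.fst := by
      rw [← h2]
      ring
    rw [h6]

/-- a tree with a labelling with `f r = 0` and labels at most `n`, together with leaves at `r` -/
theorem heavy {V : Type} [Fintype V] {T : SimpleGraph V} (hT : T.IsTree) (r : V) (t n : ℕ)
    (hn : T.edgeSet.ncard + t = n) (f : V → ℕ) (f1 : Function.Injective f) (f2 : ∀ x, f x ≤ n)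
    (f0 : f r = 0)
    (f4 : ∀ x y x' y', T.Adj x y → T.Adj x' y' →
      Int.natAbs ((f x : ℤ) - (f y : ℤ)) = Int.natAbs ((f x' : ℤ) - (f y' : ℤ)) →
      s(x, y) = s(x', y')) :
    (att T (fun _ : Fin t => r)).IsTree ∧ (att T (fun _ : Fin t => r)).edgeSet.ncard = n ∧
    ∃ h : V ⊕ Fin t → ZMod (2 * n + 1), Function.Injective h ∧
      ∀ x y : ZMod (2 * n + 1), x ≠ y → ∃! p : ZMod (2 * n + 1) × (V ⊕ Fin t) × (V ⊕ Fin t),
        (att T (fun _ : Fin t => r)).Adj p.2.1 p.2.2 ∧ h p.2.1 + p.1 = x ∧ h p.2.2 + p.1 = y := by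
  classical
  have htree : (att T (fun _ : Fin t => r)).IsTree := att_tree T _ hT
  have hcard : (att T (fun _ : Fin t => r)).edgeSet.ncard = n := by
    rw [← Nat.card_coe_set_eq, att_edges, Nat.card_coe_set_eq, Nat.card_eq_fintype_card,
      Fintype.card_fin]
    exact hn
  -- the missing differences
  let F : Sym2 V → ℕ := Sym2.lift ⟨fun a b => Int.natAbs ((f a : ℤ) - f b), fun a b => by
    show Int.natAbs ((f a : ℤ) - f b) = Int.natAbs ((f b : ℤ) - f a)
    omega⟩
  have hF : ∀ a b, F s(a, b) = Int.natAbs ((f a : ℤ) - f b) := fun a b => rfl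
  let D : Finset ℕ := Finset.Icc 1 n \ T.edgeFinset.image F
  have hD : t ≤ D.card := by
    have h1 : T.edgeFinset.card = T.edgeSet.ncard := by
      rw [← Set.ncard_coe_finset, SimpleGraph.coe_edgeFinset]
    have h2 : (T.edgeFinset.image F).card ≤ T.edgeFinset.card := Finset.card_image_le
    have h3 := Finset.le_card_sdiff (T.edgeFinset.image F) (Finset.Icc 1 n)
    rw [Nat.card_Icc] at h3
    have h4 : D.card = (Finset.Icc 1 n \ T.edgeFinset.image F).card := rfl
    omega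
  let e : Fin t → ℕ := fun j => D.orderEmbOfFin rfl (Fin.castLE hD j)
  have he1 : ∀ j, e j ∈ D := fun j => Finset.orderEmbOfFin_mem D rfl _
  have heinj : Function.Injective e := by
    intro i j hij
    exact Fin.castLE_injective hD ((D.orderEmbOfFin rfl).injective hij)
  have he2 : ∀ j, 1 ≤ e j ∧ e j ≤ n := fun j => Finset.mem_Icc.1 (Finset.mem_sdiff.1 (he1 j)).1
  have he3 : ∀ j x y, T.Adj x y → Int.natAbs ((f x : ℤ) - f y) ≠ e j := by
    intro j x y hxy h2
    apply (Finset.mem_sdiff.1 (he1 j)).2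
    rw [← h2, ← hF]
    exact Finset.mem_image_of_mem _ (SimpleGraph.mem_edgeFinset.2 hxy)
  let h : V ⊕ Fin t → ZMod (2 * n + 1) :=
    Sum.elim (fun x => (f x : ZMod (2 * n + 1))) (fun j => - (e j : ZMod (2 * n + 1)))
  have hmod : ∀ (u v : ℕ), (u : ZMod (2 * n + 1)) = (v : ZMod (2 * n + 1)) → u < v + (2 * n + 1) →
      v < u + (2 * n + 1) → u = v := by
    intro u v h h2 h3
    have h4 := (ZMod.natCast_eq_natCast_iff u v (2 * n + 1)).1 h
    exact Nat.ModEq.eq_of_abs_lt h4 (by rw [abs_lt]; constructor <;> omega)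
  have hmix : ∀ x j, (f x : ZMod (2 * n + 1)) ≠ - (e j : ZMod (2 * n + 1)) := by
    intro x j h2
    have h3 : ((f x + e j : ℕ) : ZMod (2 * n + 1)) = ((0 : ℕ) : ZMod (2 * n + 1)) := by
      push_cast
      rw [h2]
      ring
    have h4 := f2 x
    have h5 := he2 j
    have := hmod _ _ h3 (by omega) (by omega)
    omega
  have hinj : Function.Injective h := by
    rintro (x | i) (y | j) hxy
    · have h2 := f2 x
      have h3 := f2 y
      exact congrArg Sum.inl (f1 (hmod _ _ hxy (by omega) (by omega)))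
    · exact absurd hxy (hmix x j)
    · exact absurd hxy.symm (hmix y i)
    · have h2 := he2 i
      have h3 := he2 j
      have h4 : (e i : ZMod (2 * n + 1)) = (e j : ZMod (2 * n + 1)) := neg_injective hxy
      exact congrArg Sum.inr (heinj (hmod _ _ h4 (by omega) (by omega)))
  -- the signed differences
  have key : ∀ a b, (att T (fun _ : Fin t => r)).Adj a b → ∃ z : ℤ,
      h b - h a = (z : ZMod (2 * n + 1)) ∧ 1 ≤ |z| ∧ |z| ≤ n ∧
      ((∃ x y, T.Adj x y ∧ a = Sum.inl x ∧ b = Sum.inl y ∧ z = (f y : ℤ) - f x) ∨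
        (∃ j, a = Sum.inl r ∧ b = Sum.inr j ∧ z = - (e j : ℤ)) ∨
        (∃ j, a = Sum.inr j ∧ b = Sum.inl r ∧ z = (e j : ℤ))) := by
    intro a b hab
    match a, b, hab with
    | Sum.inl x, Sum.inl y, hxy =>
      have h2 := f2 x
      have h3 := f2 y
      have h4 : f x ≠ f y := fun h5 => (show T.Adj x y from hxy).ne (f1 h5)
      refine ⟨(f y : ℤ) - f x, ?_, ?_, ?_, Or.inl ⟨x, y, hxy, rfl, rfl, rfl⟩⟩
      · show (f y : ZMod (2 * n + 1)) - (f x : ZMod (2 * n + 1)) = _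
        push_cast
        rfl
      · rcases abs_cases ((f y : ℤ) - f x) with ⟨h5, h6⟩ | ⟨h5, h6⟩ <;> omega
      · rcases abs_cases ((f y : ℤ) - f x) with ⟨h5, h6⟩ | ⟨h5, h6⟩ <;> omega
    | Sum.inl x, Sum.inr j, hxj =>
      have h2 : r = x := hxj
      subst h2
      have h3 := he2 j
      refine ⟨- (e j : ℤ), ?_, ?_, ?_, Or.inr (Or.inl ⟨j, rfl, rfl, rfl⟩)⟩
      · show - (e j : ZMod (2 * n + 1)) - (f r : ZMod (2 * n + 1)) = _
        rw [f0]
        push_cast
        ring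
      · rw [abs_neg, Nat.abs_cast]
        omega
      · rw [abs_neg, Nat.abs_cast]
        omega
    | Sum.inr j, Sum.inl x, hxj =>
      have h2 : r = x := hxj
      subst h2
      have h3 := he2 j
      refine ⟨(e j : ℤ), ?_, ?_, ?_, Or.inr (Or.inr ⟨j, rfl, rfl, rfl⟩)⟩
      · show (f r : ZMod (2 * n + 1)) - (- (e j : ZMod (2 * n + 1))) = _
        rw [f0]
        push_cast
        ring
      · rw [Nat.abs_cast]
        omega
      · rw [Nat.abs_cast]
        omega
  have hz : ∀ z z' : ℤ, (z : ZMod (2 * n + 1)) = (z' : ZMod (2 * n + 1)) → |z| ≤ n → |z'| ≤ n →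
      z = z' := by
    intro z z' h2 h3 h4
    have h5 := (ZMod.intCast_eq_intCast_iff_dvd_sub z z' (2 * n + 1)).1 h2
    have h6 : z' - z = 0 := by
      apply Int.eq_zero_of_abs_lt_dvd h5
      rw [abs_le] at h3 h4
      rw [abs_lt]
      push_cast
      constructor <;> omega
    omega
  refine ⟨htree, hcard, h, hinj, cyc_of_inj _ n hcard h ?_ ?_⟩
  · intro a b hab h2
    obtain ⟨z, h3, h4, h5, -⟩ := key a b hab
    rw [h3] at h2
    have h6 := hz z 0 (by rw [h2]; simp) h5 (by simp)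
    rw [h6] at h4
    simp at h4
  · intro a b a' b' hab hab' h2
    obtain ⟨z, h3, h4, h5, h6⟩ := key a b hab
    obtain ⟨z', k3, k4, k5, k6⟩ := key a' b' hab'
    rw [h3, k3] at h2
    have h7 := hz z z' h2 h5 k5
    subst h7
    rcases h6 with ⟨x, y, hxy, rfl, rfl, h8⟩ | ⟨j, rfl, rfl, h8⟩ | ⟨j, rfl, rfl, h8⟩ <;>
      rcases k6 with ⟨x', y', hxy', rfl, rfl, k8⟩ | ⟨j', rfl, rfl, k8⟩ | ⟨j', rfl, rfl, k8⟩
    · have h9 := f4 x y x' y' hxy hxy' (by omega)
      rcases Sym2.eq_iff.1 h9 with ⟨h10, h11⟩ | ⟨h10, h11⟩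
      · rw [h10, h11]
        exact ⟨rfl, rfl⟩
      · exfalso
        subst h10
        subst h11
        have h12 : z = 0 := by omega
        rw [h12] at h4
        simp at h4
    · exfalso
      have h9 := he3 j' x y hxy
      omega
    · exfalso
      have h9 := he3 j' x y hxy
      omega
    · exfalso
      have h9 := he3 j x' y' hxy'
      omega
    · have h9 : e j = e j' := by omega
      rw [heinj h9]
      exact ⟨rfl, rfl⟩
    · exfalso
      have h9 := he2 j
      have h10 := he2 j'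
      omega
    · exfalso
      have h9 := he3 j x' y' hxy'
      omega
    · exfalso
      have h9 := he2 j
      have h10 := he2 j'
      omega
    · have h9 : e j = e j' := by omega
      rw [heinj h9]
      exact ⟨rfl, rfl⟩

/-- the labelling from the steps; the root gets the label `0` -/
theorem rooted_of_enum {V : Type} [Fintype V] {T : SimpleGraph V} {m : ℕ} {r : V}
    {v : ℕ → V} {p : ℕ → ℕ} {Js : Finset ℕ} (hv0 : v 0 = r)
    (hE : Enum m p Js)
    (hinj : ∀ i j, i ≤ m → j ≤ m → v i = v j → i = j)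
    (hsurj : ∀ x : V, ∃ i ≤ m, v i = x)
    (hadj : ∀ x y : V, T.Adj x y → ∃ i, 1 ≤ i ∧ i ≤ m ∧
      ((v i = x ∧ v (p i) = y) ∨ (v i = y ∧ v (p i) = x)))
    {M : ℕ} {c : ℕ → Bool} {s : ℕ → ℕ}
    (hG : Good m p Js M c s) :
    ∃ f : V → ℕ, Function.Injective f ∧ (∀ x, f x ≤ M) ∧ f r = 0 ∧
      (∀ x y x' y', T.Adj x y → T.Adj x' y' →
        Int.natAbs ((f x : ℤ) - (f y : ℤ)) = Int.natAbs ((f x' : ℤ) - (f y' : ℤ)) →
        s(x, y) = s(x', y')) ∧
      ∀ i ≤ m, f (v i) = lab M c (s i) := by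
  classical
  choose idx hidx1 hidx2 using hsurj
  have hs : ∀ i ≤ m, s i ≤ M := fun i hi => s_le hG hi
  have hvidx : ∀ i ≤ m, idx (v i) = i := fun i hi => hinj _ _ (hidx1 _) hi (hidx2 _)
  have hidxinj : ∀ x y, idx x = idx y → x = y := fun x y h => by
    rw [← hidx2 x, ← hidx2 y, h]
  -- the number of an edge
  have hedge : ∀ x y, T.Adj x y → ∃ i, 1 ≤ i ∧ i ≤ m ∧ s(x, y) = s(v i, v (p i)) ∧
      c (s (idx x)) ≠ c (s (idx y)) ∧
      rk c (s (idx x)) + rk c (s (idx y)) = rk c (s i) + rk c (s (p i)) := by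
    intro x y hxy
    obtain ⟨i, hi1, hi2, hi3⟩ := hadj x y hxy
    have hpi : p i ≤ m := (hE.lt i hi1 hi2).le.trans hi2
    have hc := hG.cls i hi1 hi2
    refine ⟨i, hi1, hi2, ?_⟩
    rcases hi3 with ⟨ha, hb⟩ | ⟨ha, hb⟩
    · rw [← ha, ← hb, hvidx i hi2, hvidx _ hpi]
      exact ⟨rfl, hc, rfl⟩
    · rw [← ha, ← hb, hvidx i hi2, hvidx _ hpi]
      exact ⟨Sym2.eq_swap, hc.symm, Nat.add_comm _ _⟩
  -- the difference numbers of the edges are different
  have hEi : ∀ i, 1 ≤ i → i ≤ m → (i ∉ Js ∧ rk c (s i) + rk c (s (p i)) + 1 = s i) ∨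
      (i ∈ Js ∧ rk c (s i) + rk c (s (p i)) + 1 = sg c s p i) := by
    intro i hi1 hi2
    by_cases hJ : i ∈ Js
    · exact Or.inr ⟨hJ, rfl⟩
    · have hlt := hE.lt i hi1 hi2
      have h2 := rk_base (hG.mono (p i) i hlt hi2) (hG.cls i hi1 hi2).symm
        (fun u hu1 hu2 => hG.reg i hi1 hi2 hJ u hu1 hu2)
      exact Or.inl ⟨hJ, by omega⟩
  have hEinj : ∀ i j, 1 ≤ i → i ≤ m → 1 ≤ j → j ≤ m →
      rk c (s i) + rk c (s (p i)) = rk c (s j) + rk c (s (p j)) → i = j := by
    intro i j hi1 hi2 hj1 hj2 h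
    rcases hEi i hi1 hi2 with ⟨h2, h3⟩ | ⟨h2, h3⟩ <;> rcases hEi j hj1 hj2 with ⟨h4, h5⟩ | ⟨h4, h5⟩
    · exact s_ne hG hi2 hj2 (by omega)
    · exfalso
      rcases hG.hole j h4 with ⟨l, h6, h7⟩ | ⟨h6, _⟩
      · have h8 : s i = s l := by omega
        rw [s_ne hG hi2 (hE.sub l h6).2 h8] at h2
        exact h2 h6
      · exact h6 i hi2 (by omega)
    · exfalso
      rcases hG.hole i h2 with ⟨l, h6, h7⟩ | ⟨h6, _⟩
      · have h8 : s j = s l := by omega
        rw [s_ne hG hj2 (hE.sub l h6).2 h8] at h4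
        exact h4 h6
      · exact h6 j hj2 (by omega)
    · exact hG.inj i h2 j h4 (by omega)
  refine ⟨fun x => lab M c (s (idx x)), ?_, fun x => lab_le (hs _ (hidx1 x)), ?_, ?_,
    fun i hi => by simp only [hvidx i hi]⟩
  · intro x y hxy
    exact hidxinj x y (s_ne hG (hidx1 x) (hidx1 y) (lab_inj (hs _ (hidx1 x)) (hs _ (hidx1 y)) hxy))
  · have h2 : idx r = 0 := by
      rw [← hv0]
      exact hvidx 0 (Nat.zero_le _)
    show lab M c (s (idx r)) = 0
    rw [h2, hG.zero]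
    unfold lab rk
    rw [hG.c0]
    simp [cn]
  · intro x y x' y' hxy hxy' hd
    obtain ⟨i, hi1, hi2, hi3, hi4, hi5⟩ := hedge x y hxy
    obtain ⟨j, hj1, hj2, hj3, hj4, hj5⟩ := hedge x' y' hxy'
    have h2 := lab_diff (hs _ (hidx1 x)) (hs _ (hidx1 y)) hi4
    have h3 := lab_diff (hs _ (hidx1 x')) (hs _ (hidx1 y')) hj4
    have h4 := rk_le' (hs _ (hidx1 x)) (hs _ (hidx1 y)) hi4
    have h5 := rk_le' (hs _ (hidx1 x')) (hs _ (hidx1 y')) hj4
    have h6 : i = j := by
      apply hEinj i j hi1 hi2 hj1 hj2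
      simp only at hd
      rw [h2, h3] at hd
      omega
    rw [hi3, hj3, h6]

end Pool.Agent.TH56.CM
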