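import Pool.Agent.TH56.CM.At

/-!
# Cyclic decompositions for trees with a vertex with many leaf neighbours
-/

set_option autoImplicit false

namespace Pool.Agent.TH56.CM

open Finset Pool.Agent.TH56.CT Pool.Agent.TH56.CT.SupAux
open Pool.Agent.TH56.CL (Ord Jmp lvl Lvl enu dfs)
open Pool.Agent.TH368.GD (DL)

/-- `S` is a set of leaves at `r`; the labels of the other vertices are at most `n` -/
theorem heavy2 {V : Type} [Fintype V] {T : SimpleGraph V} (r : V) (S : Finset V)
    (hS : ∀ y ∈ S, T.Adj r y ∧ ∀ z, T.Adj y z → z = r) (n : ℕ)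
    (hn : T.edgeSet.ncard = n) (f : V → ℕ) (f1 : Function.Injective f) (f2 : ∀ x, x ∉ S → f x ≤ n)
    (f0 : f r = 0)
    (f4 : ∀ x y x' y', T.Adj x y → T.Adj x' y' →
      Int.natAbs ((f x : ℤ) - (f y : ℤ)) = Int.natAbs ((f x' : ℤ) - (f y' : ℤ)) →
      s(x, y) = s(x', y')) :
    ∃ h : V → ZMod (2 * n + 1), Function.Injective h ∧
      ∀ x y : ZMod (2 * n + 1), x ≠ y → ∃! p : ZMod (2 * n + 1) × V × V,
        T.Adj p.2.1 p.2.2 ∧ h p.2.1 + p.1 = x ∧ h p.2.2 + p.1 = y := by
  classical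
  have hrS : r ∉ S := fun h => (hS r h).1.ne rfl
  -- the missing differences
  let F : Sym2 V → ℕ := Sym2.lift ⟨fun a b => Int.natAbs ((f a : ℤ) - f b), fun a b => by
    show Int.natAbs ((f a : ℤ) - f b) = Int.natAbs ((f b : ℤ) - f a)
    omega⟩
  have hF : ∀ a b, F s(a, b) = Int.natAbs ((f a : ℤ) - f b) := fun a b => rfl
  let E0 : Finset (Sym2 V) := T.edgeFinset \ S.image (fun y => s(r, y))
  let D : Finset ℕ := Finset.Icc 1 n \ E0.image F
  have hD : S.card ≤ D.card := by
    have h1 : T.edgeFinset.card = n := by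
      rw [← hn, ← Set.ncard_coe_finset, SimpleGraph.coe_edgeFinset]
    have h2 : (E0.image F).card ≤ E0.card := Finset.card_image_le
    have h3 := Finset.le_card_sdiff (E0.image F) (Finset.Icc 1 n)
    rw [Nat.card_Icc] at h3
    have h4 : D.card = (Finset.Icc 1 n \ E0.image F).card := rfl
    have h5 : S.image (fun y => s(r, y)) ⊆ T.edgeFinset := by
      intro e he
      obtain ⟨y, hy, rfl⟩ := Finset.mem_image.1 he
      exact SimpleGraph.mem_edgeFinset.2 (hS y hy).1
    have h6 : (S.image (fun y => s(r, y))).card = S.card := by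
      apply Finset.card_image_of_injOn
      intro y _ y' _ hyy
      rcases Sym2.eq_iff.1 hyy with h | h
      · exact h.2
      · rw [h.2, h.1]
    have h7 := Finset.card_sdiff_add_card_eq_card h5
    have h8 : E0.card = (T.edgeFinset \ S.image (fun y => s(r, y))).card := rfl
    omega
  let e : V → ℕ := fun y => if hy : y ∈ S then D.orderEmbOfFin rfl (Fin.castLE hD (S.equivFin ⟨y, hy⟩))
    else 0
  have he0 : ∀ y (hy : y ∈ S), e y = D.orderEmbOfFin rfl (Fin.castLE hD (S.equivFin ⟨y, hy⟩)) :=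
    fun y hy => dif_pos hy
  have he1 : ∀ y ∈ S, e y ∈ D := fun y hy => by
    rw [he0 y hy]
    exact Finset.orderEmbOfFin_mem D rfl _
  have heinj : ∀ y ∈ S, ∀ y' ∈ S, e y = e y' → y = y' := by
    intro y hy y' hy' h
    rw [he0 y hy, he0 y' hy'] at h
    have h2 := Fin.castLE_injective hD ((D.orderEmbOfFin rfl).injective h)
    exact congrArg Subtype.val (S.equivFin.injective h2)
  have he2 : ∀ y ∈ S, 1 ≤ e y ∧ e y ≤ n := fun y hy =>
    Finset.mem_Icc.1 (Finset.mem_sdiff.1 (he1 y hy)).1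
  have he3 : ∀ j ∈ S, ∀ x y, T.Adj x y → x ∉ S → y ∉ S →
      Int.natAbs ((f x : ℤ) - f y) ≠ e j := by
    intro j hj x y hxy hx hy h2
    apply (Finset.mem_sdiff.1 (he1 j hj)).2
    rw [← h2, ← hF]
    refine Finset.mem_image_of_mem _ (Finset.mem_sdiff.2 ⟨SimpleGraph.mem_edgeFinset.2 hxy, ?_⟩)
    intro h3
    obtain ⟨z, hz, hz2⟩ := Finset.mem_image.1 h3
    rcases Sym2.eq_iff.1 hz2 with h4 | h4
    · rw [h4.2] at hz
      exact hy hz
    · rw [h4.2] at hz
      exact hx hz
  let h : V → ZMod (2 * n + 1) := fun x =>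
    if x ∈ S then - (e x : ZMod (2 * n + 1)) else (f x : ZMod (2 * n + 1))
  have hh1 : ∀ x, x ∈ S → h x = - (e x : ZMod (2 * n + 1)) := fun x hx => if_pos hx
  have hh2 : ∀ x, x ∉ S → h x = (f x : ZMod (2 * n + 1)) := fun x hx => if_neg hx
  have hmod : ∀ (u v : ℕ), (u : ZMod (2 * n + 1)) = (v : ZMod (2 * n + 1)) → u < v + (2 * n + 1) →
      v < u + (2 * n + 1) → u = v := by
    intro u v h h2 h3
    have h4 := (ZMod.natCast_eq_natCast_iff u v (2 * n + 1)).1 h
    exact Nat.ModEq.eq_of_abs_lt h4 (by rw [abs_lt]; constructor <;> omega)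
  have hmix : ∀ x, x ∉ S → ∀ j ∈ S, (f x : ZMod (2 * n + 1)) ≠ - (e j : ZMod (2 * n + 1)) := by
    intro x hx j hj h2
    have h3 : ((f x + e j : ℕ) : ZMod (2 * n + 1)) = ((0 : ℕ) : ZMod (2 * n + 1)) := by
      push_cast
      rw [h2]
      ring
    have h4 := f2 x hx
    have h5 := he2 j hj
    have := hmod _ _ h3 (by omega) (by omega)
    omega
  have hinj : Function.Injective h := by
    intro x y hxy
    by_cases hx : x ∈ S <;> by_cases hy : y ∈ S
    · rw [hh1 x hx, hh1 y hy] at hxy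
      have h2 := he2 x hx
      have h3 := he2 y hy
      exact heinj x hx y hy (hmod _ _ (neg_injective hxy) (by omega) (by omega))
    · rw [hh1 x hx, hh2 y hy] at hxy
      exact absurd hxy.symm (hmix y hy x hx)
    · rw [hh2 x hx, hh1 y hy] at hxy
      exact absurd hxy (hmix x hx y hy)
    · rw [hh2 x hx, hh2 y hy] at hxy
      have h2 := f2 x hx
      have h3 := f2 y hy
      exact f1 (hmod _ _ hxy (by omega) (by omega))
  -- the signed differences
  have key : ∀ a b, T.Adj a b → ∃ z : ℤ,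
      h b - h a = (z : ZMod (2 * n + 1)) ∧ 1 ≤ |z| ∧ |z| ≤ n ∧
      ((a ∉ S ∧ b ∉ S ∧ z = (f b : ℤ) - f a) ∨
        (b ∈ S ∧ a = r ∧ z = - (e b : ℤ)) ∨
        (a ∈ S ∧ b = r ∧ z = (e a : ℤ))) := by
    intro a b hab
    by_cases ha : a ∈ S
    · have hb : b = r := (hS a ha).2 b hab
      have h3 := he2 a ha
      refine ⟨(e a : ℤ), ?_, ?_, ?_, Or.inr (Or.inr ⟨ha, hb, rfl⟩)⟩
      · rw [hb, hh2 r hrS, hh1 a ha, f0]
        push_cast
        ring
      · rw [Nat.abs_cast]
        omega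
      · rw [Nat.abs_cast]
        omega
    · by_cases hb : b ∈ S
      · have ha2 : a = r := (hS b hb).2 a hab.symm
        have h3 := he2 b hb
        refine ⟨- (e b : ℤ), ?_, ?_, ?_, Or.inr (Or.inl ⟨hb, ha2, rfl⟩)⟩
        · rw [ha2, hh2 r hrS, hh1 b hb, f0]
          push_cast
          ring
        · rw [abs_neg, Nat.abs_cast]
          omega
        · rw [abs_neg, Nat.abs_cast]
          omega
      · have h2 := f2 a ha
        have h3 := f2 b hb
        have h4 : f a ≠ f b := fun h5 => hab.ne (f1 h5)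
        refine ⟨(f b : ℤ) - f a, ?_, ?_, ?_, Or.inl ⟨ha, hb, rfl⟩⟩
        · rw [hh2 a ha, hh2 b hb]
          push_cast
          rfl
        · rcases abs_cases ((f b : ℤ) - f a) with ⟨h5, h6⟩ | ⟨h5, h6⟩ <;> omega
        · rcases abs_cases ((f b : ℤ) - f a) with ⟨h5, h6⟩ | ⟨h5, h6⟩ <;> omega
  have hz : ∀ z z' : ℤ, (z : ZMod (2 * n + 1)) = (z' : ZMod (2 * n + 1)) → |z| ≤ n → |z'| ≤ n →
      z = z' := by
    intro z z' h2 h3 h4
    have h5 := (ZMod.intCast_eq_intCast_iff_dvd_sub z z' (2 * n + 1)).1 h2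
    have h6 : z' - z = 0 := by
      apply Int.eq_zero_of_abs_lt_dvd h5
      rw [abs_le] at h3 h4
      rw [abs_lt]
      push_cast
      constructor <;> omega
    omega
  refine ⟨h, hinj, cyc_of_inj _ n hn h ?_ ?_⟩
  · intro a b hab h2
    obtain ⟨z, h3, h4, h5, -⟩ := key a b hab
    rw [h3] at h2
    have h6 := hz z 0 (by rw [h2]; simp) h5 (by simp)
    rw [h6] at h4
    simp at h4
  · intro a b a' b' hab hab' h2
    obtain ⟨z, h3, h4, h5, h6⟩ := key a b hab
    obtain ⟨z', k3, k4, k5, k6⟩ := key a' b' hab'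
    rw [h3, k3] at h2
    have h7 := hz z z' h2 h5 k5
    subst h7
    rcases h6 with ⟨ha, hb, h8⟩ | ⟨hb, ha, h8⟩ | ⟨ha, hb, h8⟩ <;>
      rcases k6 with ⟨ha', hb', k8⟩ | ⟨hb', ha', k8⟩ | ⟨ha', hb', k8⟩
    · have h9 := f4 a b a' b' hab hab' (by omega)
      rcases Sym2.eq_iff.1 h9 with ⟨h10, h11⟩ | ⟨h10, h11⟩
      · exact ⟨h10, h11⟩
      · exfalso
        rw [← h10, ← h11] at k8
        have h12 : z = 0 := by omega
        rw [h12] at h4
        simp at h4
    · exfalso
      have h9 := he3 b' hb' a b hab ha hb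
      omega
    · exfalso
      have h9 := he3 a' ha' a b hab ha hb
      omega
    · exfalso
      have h9 := he3 b hb a' b' hab' ha' hb'
      omega
    · have h9 : e b = e b' := by omega
      exact ⟨ha.trans ha'.symm, heinj b hb b' hb' h9⟩
    · exfalso
      have h9 := he2 b hb
      have h10 := he2 a' ha'
      omega
    · exfalso
      have h9 := he3 a ha a' b' hab' ha' hb'
      omega
    · exfalso
      have h9 := he2 a ha
      have h10 := he2 b' hb'
      omega
    · have h9 : e a = e a' := by omega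
      exact ⟨heinj a ha a' ha' h9, hb.trans hb'.symm⟩

end Pool.Agent.TH56.CM
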