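import Pool.Agent.TH56.CM.Heavy2

/-!
# Labellings with the label `0` at a given vertex `r`; the leaves at `r` come first
-/

set_option autoImplicit false

namespace Pool.Agent.TH56.CM

open Finset Pool.Agent.TH56.CT Pool.Agent.TH56.CT.SupAux
open Pool.Agent.TH56.CL (Ord Jmp lvl Lvl enu dfs)
open Pool.Agent.TH368.GD (DL)

/-- children of the root without children come before all other vertices -/
theorem leaves_first {m : ℕ} {p w : ℕ → ℕ} (hO : Ord m p w) {i : ℕ} (him : i ≤ m)
    (hpi : p i = 0) (hwi : w i = 0) : ∀ j, 1 ≤ j → j < i → p j = 0 ∧ w j = 0 := by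
  intro j
  induction j using Nat.strong_induction_on with
  | _ j ih =>
    intro hj1 hji
    have hpj : p j = 0 := by
      by_contra hne
      have h1 : 1 ≤ p j := by omega
      have h2 := hO.lt j hj1 (by omega)
      have h3 := ih (p j) h2 h1 (by omega)
      have h4 := hO.w1 (p j) (by omega) ⟨j, hj1, by omega, rfl⟩
      have h5 : 1 ≤ max 1 (∑ k ∈ (Icc 1 m).filter (fun k => p k = p j), w k) := le_max_left _ _
      omega
    refine ⟨hpj, ?_⟩
    have h1 := hO.srt j i hj1 hji him (by rw [hpj, hpi])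
    omega

theorem at_labelling {V : Type} [Fintype V] {T : SimpleGraph V} (hT : T.IsTree)
    (h1 : 1 ≤ T.edgeSet.ncard) (r : V) (S : Finset V)
    (hS : ∀ y, y ∈ S ↔ T.Adj r y ∧ ∀ z, T.Adj y z → z = r) :
    ∃ (f : V → ℕ) (M : ℕ), Function.Injective f ∧ f r = 0 ∧
      (∀ x y x' y', T.Adj x y → T.Adj x' y' →
        Int.natAbs ((f x : ℤ) - (f y : ℤ)) = Int.natAbs ((f x' : ℤ) - (f y' : ℤ)) →
        s(x, y) = s(x', y')) ∧
      (∀ x, x ∉ S → x ≠ r → f x + S.card ≤ M) ∧
      M ≤ T.edgeSet.ncard + 12 * ((DL T).ncard - 1) := by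
  classical
  obtain ⟨v, p, w, hv0, hO, hinj, hsurj, hadj, hpadj, hw⟩ := exists_ord_at hT h1 r
  obtain ⟨M, c, s, hG, hM⟩ := Pool.Agent.TH368.GD.W3.wrd3 h1 (Pool.Agent.TH368.GD.C2.lv3 hO)
  have hE := (enu _ _ _ hO).1
  obtain ⟨f, f1, f2, f3, f4, f5⟩ := rooted_of_enum hv0 hE hinj hsurj hadj hG
  set m : ℕ := T.edgeSet.ncard with hm
  refine ⟨f, M, f1, f3, f4, ?_, ?_⟩
  · -- the index of an element of `S`
    have hidx : ∀ y ∈ S, ∃ j, 1 ≤ j ∧ j ≤ m ∧ v j = y ∧ p j = 0 ∧ w j = 0 := by
      intro y hy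
      obtain ⟨h2, h3⟩ := (hS y).1 hy
      obtain ⟨j, hj, hjy⟩ := hsurj y
      have hj1 : 1 ≤ j := by
        by_contra h4
        have h5 : j = 0 := by omega
        rw [h5, hv0] at hjy
        exact h2.ne hjy
      refine ⟨j, hj1, hj, hjy, ?_, ?_⟩
      · obtain ⟨k, hk1, hk2, hk3⟩ := hadj r y h2
        rcases hk3 with ⟨ha, hb⟩ | ⟨ha, hb⟩
        · exfalso
          have h6 := hinj k 0 hk2 (Nat.zero_le _) (by rw [ha, hv0])
          omega
        · have h6 : k = j := hinj k j hk2 hj (by rw [ha, hjy])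
          have h7 : p k = 0 := hinj (p k) 0 ((hE.lt k hk1 hk2).le.trans hk2) (Nat.zero_le _)
            (by rw [hb, hv0])
          rw [← h6, h7]
      · apply hO.w0 j hj
        intro k hk1 hk2 hkj
        have hlt := hE.lt k hk1 hk2
        -- the child `v k` of `y`
        have h8 := hpadj k hk1 hk2
        rw [hkj, hjy] at h8
        have h9 := h3 (v k) h8.symm
        have h10 := hinj k 0 hk2 (Nat.zero_le _) (by rw [h9, hv0])
        omega
    intro x hxS hxr
    obtain ⟨i, hi, hix⟩ := hsurj x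
    have hi1 : 1 ≤ i := by
      by_contra h4
      have h5 : i = 0 := by omega
      rw [h5, hv0] at hix
      exact hxr hix.symm
    -- the vertices of `S` come before `x`
    have hlt : ∀ j, 1 ≤ j → j ≤ m → v j ∈ S → j < i := by
      intro j hj1 hj hjS
      by_contra hge
      obtain ⟨j', hj'1, hj'm, hj'v, hpj, hwj⟩ := hidx (v j) hjS
      have hjj : j' = j := hinj j' j hj'm hj hj'v
      subst hjj
      rcases Nat.lt_or_ge i j' with h4 | h4
      · obtain ⟨h5, h6⟩ := leaves_first hO hj'm hpj hwj i hi1 h4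
        apply hxS
        rw [hS]
        constructor
        · have h7 := hpadj i hi1 hi
          rw [h5, hv0, hix] at h7
          exact h7.symm
        · intro z hxz
          obtain ⟨k, hk1, hk2, hk3⟩ := hadj x z hxz
          rcases hk3 with ⟨ha, hb⟩ | ⟨ha, hb⟩
          · have h8 : k = i := hinj k i hk2 hi (by rw [ha, hix])
            rw [← hb, h8, h5, hv0]
          · exfalso
            have h8 : p k = i := hinj (p k) i ((hE.lt k hk1 hk2).le.trans hk2) hi (by rw [hb, hix])
            have h9 := hO.w1 i hi ⟨k, hk1, hk2, h8⟩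
            have h10 : 1 ≤ max 1 (∑ k ∈ (Icc 1 m).filter (fun k => p k = i), w k) :=
              le_max_left _ _
            omega
      · have h5 : i = j' := by omega
        rw [← h5, hix] at hjS
        exact hxS hjS
    -- there are at least `|S|` steps of class `true` before `s i`
    have hcount : S.card ≤ cn c true (s i) := by
      choose jd hjd1 hjd2 hjd3 hjd4 hjd5 using hidx
      let g : V → ℕ := fun y => if hy : y ∈ S then s (jd y hy) else 0
      have hg : ∀ y (hy : y ∈ S), g y = s (jd y hy) := fun y hy => dif_pos hy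
      have h4 : (S.image g).card = S.card := by
        apply Finset.card_image_of_injOn
        intro y hy y' hy' hyy
        rw [hg y hy, hg y' hy'] at hyy
        have h5 := s_ne hG (hjd2 y hy) (hjd2 y' hy') hyy
        rw [← hjd3 y hy, ← hjd3 y' hy', h5]
      rw [← h4]
      apply Finset.card_le_card
      intro t ht
      obtain ⟨y, hy, rfl⟩ := Finset.mem_image.1 ht
      rw [hg y hy]
      refine Finset.mem_filter.2 ⟨Finset.mem_range.2 ?_, ?_⟩
      · exact hG.mono _ _ (hlt _ (hjd1 y hy) (hjd2 y hy) (by rw [hjd3 y hy]; exact hy)) hi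
      · have h6 := hG.cls _ (hjd1 y hy) (hjd2 y hy)
        rw [hjd4 y hy, hG.zero, hG.c0] at h6
        simpa using h6
    have hle : s i ≤ M := s_le hG hi
    have h7 := SupAux.cn_add (c := c) (s i)
    rw [← hix, f5 i hi]
    unfold lab rk
    cases h8 : c (s i)
    · simp only [if_true]
      omega
    · simp only [Bool.true_eq_false, if_false]
      omega
  · refine hM.trans ?_
    have h2 := Pool.Agent.TH368.GD.C2.cost_lin hO
    have h3 : ∑ k ∈ Jmp m p w, ((4 * 2 ^ (lvl p w k / 2) - 1) + 1) =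
        ∑ k ∈ Jmp m p w, 4 * 2 ^ (lvl p w k / 2) := by
      refine sum_congr rfl fun k _ => ?_
      have : 1 ≤ 2 ^ (lvl p w k / 2) := Nat.one_le_pow _ _ (by norm_num)
      omega
    rw [h3]
    omega

end Pool.Agent.TH56.CM
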