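import Pool.Agent.TH56.CL.Bip
import Pool.Agent.TH368.GD.Fin2
import Pool.Agent.TH368.GD.Lin

/-!
# Range relaxed bipartite labellings of trees from the steps

`Rlx T M`: the tree has an injective labelling with labels at most `M` and distinct edge differences
in which a prescribed colour class is below the other one.  The steps (`Good`) are those of helper368
(`Pool.Agent.TH368.GD`).
-/

set_option autoImplicit false

namespace Pool.Agent.TH56.CM

open Finset Pool.Agent.TH56.CT Pool.Agent.TH56.CT.SupAux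
open Pool.Agent.TH368.GD (DL Br Dfs Cert)

/-- range relaxed bipartite labellings with labels at most `M` -/
def Rlx {V : Type} (T : SimpleGraph V) (M : ℕ) : Prop :=
  ∀ (col : V → Bool) (b : Bool), (∀ u v, T.Adj u v → col u ≠ col v) →
    ∃ (θ : ℕ) (f : V → ℕ), Function.Injective f ∧ (∀ x, f x ≤ M) ∧
      (∀ x, col x = b ↔ f x < θ) ∧
      (∀ x y x' y', T.Adj x y → T.Adj x' y' →
        Int.natAbs ((f x : ℤ) - (f y : ℤ)) = Int.natAbs ((f x' : ℤ) - (f y' : ℤ)) →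
        s(x, y) = s(x', y'))

theorem rlx_of_enum {V : Type} [Fintype V] {T : SimpleGraph V} (hT : T.IsTree) {m : ℕ}
    {v : ℕ → V} {p : ℕ → ℕ} {Js : Finset ℕ}
    (hE : Enum m p Js)
    (hinj : ∀ i j, i ≤ m → j ≤ m → v i = v j → i = j)
    (hsurj : ∀ x : V, ∃ i ≤ m, v i = x)
    (hadj : ∀ x y : V, T.Adj x y → ∃ i, 1 ≤ i ∧ i ≤ m ∧
      ((v i = x ∧ v (p i) = y) ∨ (v i = y ∧ v (p i) = x)))
    {M : ℕ} {c : ℕ → Bool} {s : ℕ → ℕ}
    (hG : Good m p Js M c s) : Rlx T M := by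
  classical
  intro col b hcol
  choose idx hidx1 hidx2 using hsurj
  have hs : ∀ i ≤ m, s i ≤ M := fun i hi => s_le hG hi
  have hvidx : ∀ i ≤ m, idx (v i) = i := fun i hi => hinj _ _ (hidx1 _) hi (hidx2 _)
  have hidxinj : ∀ x y, idx x = idx y → x = y := fun x y h => by
    rw [← hidx2 x, ← hidx2 y, h]
  -- the number of an edge
  have hedge : ∀ x y, T.Adj x y → ∃ i, 1 ≤ i ∧ i ≤ m ∧ s(x, y) = s(v i, v (p i)) ∧
      c (s (idx x)) ≠ c (s (idx y)) ∧
      rk c (s (idx x)) + rk c (s (idx y)) = rk c (s i) + rk c (s (p i)) := by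
    intro x y hxy
    obtain ⟨i, hi1, hi2, hi3⟩ := hadj x y hxy
    have hpi : p i ≤ m := (hE.lt i hi1 hi2).le.trans hi2
    have hc := hG.cls i hi1 hi2
    refine ⟨i, hi1, hi2, ?_⟩
    rcases hi3 with ⟨ha, hb⟩ | ⟨ha, hb⟩
    · rw [← ha, ← hb, hvidx i hi2, hvidx _ hpi]
      exact ⟨rfl, hc, rfl⟩
    · rw [← ha, ← hb, hvidx i hi2, hvidx _ hpi]
      exact ⟨Sym2.eq_swap, hc.symm, Nat.add_comm _ _⟩
  -- the difference numbers of the edges are different
  have hEi : ∀ i, 1 ≤ i → i ≤ m → (i ∉ Js ∧ rk c (s i) + rk c (s (p i)) + 1 = s i) ∨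
      (i ∈ Js ∧ rk c (s i) + rk c (s (p i)) + 1 = sg c s p i) := by
    intro i hi1 hi2
    by_cases hJ : i ∈ Js
    · exact Or.inr ⟨hJ, rfl⟩
    · have hlt := hE.lt i hi1 hi2
      have h2 := rk_base (hG.mono (p i) i hlt hi2) (hG.cls i hi1 hi2).symm
        (fun u hu1 hu2 => hG.reg i hi1 hi2 hJ u hu1 hu2)
      exact Or.inl ⟨hJ, by omega⟩
  have hEinj : ∀ i j, 1 ≤ i → i ≤ m → 1 ≤ j → j ≤ m →
      rk c (s i) + rk c (s (p i)) = rk c (s j) + rk c (s (p j)) → i = j := by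
    intro i j hi1 hi2 hj1 hj2 h
    rcases hEi i hi1 hi2 with ⟨h2, h3⟩ | ⟨h2, h3⟩ <;> rcases hEi j hj1 hj2 with ⟨h4, h5⟩ | ⟨h4, h5⟩
    · exact s_ne hG hi2 hj2 (by omega)
    · exfalso
      rcases hG.hole j h4 with ⟨l, h6, h7⟩ | ⟨h6, _⟩
      · have h8 : s i = s l := by omega
        rw [s_ne hG hi2 (hE.sub l h6).2 h8] at h2
        exact h2 h6
      · exact h6 i hi2 (by omega)
    · exfalso
      rcases hG.hole i h2 with ⟨l, h6, h7⟩ | ⟨h6, _⟩
      · have h8 : s j = s l := by omega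
        rw [s_ne hG hj2 (hE.sub l h6).2 h8] at h4
        exact h4 h6
      · exact h6 j hj2 (by omega)
    · exact hG.inj i h2 j h4 (by omega)
  -- the colours
  obtain ⟨x0⟩ : Nonempty V := hT.1.nonempty
  have hcolor : ∀ x, (col x = col x0 ↔ c (s (idx x)) = c (s (idx x0))) := by
    intro x
    obtain ⟨w⟩ := hT.1.preconnected x x0
    induction w with
    | nil => simp
    | @cons a b z hab w ih =>
      have h2 := hcol a b hab
      obtain ⟨i, -, -, -, h3, -⟩ := hedge a b hab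
      revert h2 h3 ih
      cases col a <;> cases col b <;> cases col z <;> cases c (s (idx a)) <;>
        cases c (s (idx b)) <;> cases c (s (idx z)) <;> simp
  obtain ⟨f, hf⟩ : ∃ f : V → ℕ, ∀ x, f x = lab M c (s (idx x)) := ⟨_, fun _ => rfl⟩
  have hcn := SupAux.cn_add (c := c) (M + 1)
  have k1 : Function.Injective f := by
    intro x y hxy
    rw [hf, hf] at hxy
    exact hidxinj x y (s_ne hG (hidx1 x) (hidx1 y) (lab_inj (hs _ (hidx1 x)) (hs _ (hidx1 y)) hxy))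
  have k2 : ∀ x, f x ≤ M := fun x => by
    rw [hf]
    exact lab_le (hs _ (hidx1 x))
  have k3 : ∀ x, c (s (idx x)) = false ↔ f x < cn c false (M + 1) := by
    intro x
    rw [hf]
    have h4 := hs _ (hidx1 x)
    have h5 := SupAux.cn_lt (c := c) (show s (idx x) < M + 1 by omega)
    have h6 := SupAux.cn_add (c := c) (M + 1)
    unfold lab rk
    cases h7 : c (s (idx x))
    · rw [h7] at h5
      simp only [if_true, true_iff]
      omega
    · rw [h7] at h5
      simp only [Bool.true_eq_false, if_false, false_iff, not_lt]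
      omega
  have k4 : ∀ x y x' y', T.Adj x y → T.Adj x' y' →
      Int.natAbs ((f x : ℤ) - (f y : ℤ)) = Int.natAbs ((f x' : ℤ) - (f y' : ℤ)) →
      s(x, y) = s(x', y') := by
    intro x y x' y' hxy hxy' hd
    obtain ⟨i, hi1, hi2, hi3, hi4, hi5⟩ := hedge x y hxy
    obtain ⟨j, hj1, hj2, hj3, hj4, hj5⟩ := hedge x' y' hxy'
    have h2 := lab_diff (hs _ (hidx1 x)) (hs _ (hidx1 y)) hi4
    have h3 := lab_diff (hs _ (hidx1 x')) (hs _ (hidx1 y')) hj4
    have h4 := rk_le' (hs _ (hidx1 x)) (hs _ (hidx1 y)) hi4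
    have h5 := rk_le' (hs _ (hidx1 x')) (hs _ (hidx1 y')) hj4
    have h6 : i = j := by
      apply hEinj i j hi1 hi2 hj1 hj2
      rw [hf, hf, hf, hf, h2, h3] at hd
      omega
    rw [hi3, hj3, h6]
  by_cases hb : (c (s (idx x0)) = false) ↔ col x0 = b
  · -- the colour `b` is the class `false`
    refine ⟨cn c false (M + 1), f, k1, k2, ?_, k4⟩
    intro x
    rw [← k3]
    have h2 := hcolor x
    revert h2 hb
    cases col x <;> cases col x0 <;> cases b <;> cases c (s (idx x)) <;>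
      cases c (s (idx x0)) <;> simp
  · refine ⟨M + 1 - cn c false (M + 1), fun x => M - f x, ?_, fun x => Nat.sub_le _ _, ?_, ?_⟩
    · intro x y hxy
      have h2 := k2 x
      have h3 := k2 y
      simp only at hxy
      exact k1 (by omega)
    · intro x
      have h2 := k3 x
      have h3 := k2 x
      have h4 : (col x = b ↔ ¬ c (s (idx x)) = false) := by
        have h5 := hcolor x
        revert h5 hb
        cases col x <;> cases col x0 <;> cases b <;> cases c (s (idx x)) <;>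
          cases c (s (idx x0)) <;> simp
      rw [h4, h2]
      simp only
      omega
    · intro x y x' y' hxy hxy' hd
      apply k4 x y x' y' hxy hxy'
      have h2 := k2 x
      have h3 := k2 y
      have h4 := k2 x'
      have h5 := k2 y'
      simp only at hd
      omega

/-- stars and other caterpillars -/
theorem rlx_small {V : Type} [Fintype V] {T : SimpleGraph V} (hT : T.IsTree)
    (h1 : 1 ≤ T.edgeSet.ncard) (hL : (DL T).ncard ≤ 2) : Rlx T T.edgeSet.ncard := by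
  intro col b hcol
  obtain ⟨M, θ, f, f1, f2, f3, f4, f5⟩ := Pool.Agent.TH56.CL.exists_relaxed' hT h1 col hcol b
  have h2 : (DL T).ncard - 2 = 0 := by omega
  have h3 : M ≤ T.edgeSet.ncard := by
    refine f5.trans ?_
    have h4 : ({x : V | 2 ≤ (T.neighborSet x).ncard ∧
        {y : V | T.Adj x y ∧ 2 ≤ (T.neighborSet y).ncard}.ncard ≤ 1}.ncard - 2) = 0 := h2
    rw [h4]
    simp
  exact ⟨θ, f, f1, fun x => (f2 x).trans h3, f3, f4⟩

/-- the general bound from a certificate -/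
theorem rlx_of_cert {V : Type} [Fintype V] {T : SimpleGraph V} (hT : T.IsTree) {r : V}
    (hr : r ∈ DL T) {key : V → ℕ} {H : ℕ}
    (hkey : ∀ (v : ℕ → V) (p : ℕ → ℕ) (Js : Finset ℕ), Dfs T r key T.edgeSet.ncard v p Js →
      Cert T.edgeSet.ncard p Js (fun a => key (v a)) H) :
    ∃ M, Rlx T M ∧ M ≤ T.edgeSet.ncard + 2 * ((DL T).ncard - 2) * H := by
  have h1 := Pool.Agent.TH368.GD.one_le_of_mem hr
  obtain ⟨v, p, Js, hD, hp, hJ⟩ := Pool.Agent.TH368.GD.dfs_holds V T r key hT hr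
  have hC := hkey v p Js hD
  obtain ⟨g, hE2, hg⟩ := Pool.Agent.TH368.GD.num_holds _ p Js _ H hD.enum hD.dfs hD.jmp hp hD.srt hC
  obtain ⟨M, c, s, hG, hM⟩ := Pool.Agent.TH368.GD.wrd2 _ p Js g h1 hE2
  refine ⟨M, rlx_of_enum hT hD.enum hD.inj hD.surj (fun x y h => (hD.adj x y).1 h) hG,
    hM.trans ?_⟩
  apply Nat.add_le_add_left
  rcases Finset.eq_empty_or_nonempty Js with h2 | h2
  · rw [h2]
    simp
  · have h3 := hg h2
    have h4 : Js.card + 2 ≤ (DL T).ncard := by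
      rcases hJ with h5 | h5
      · exact absurd h5 (Finset.card_pos.2 h2).ne'
      · exact h5
    calc 2 * (g + 1) * Js.card = 2 * Js.card * (g + 1) := by ring
      _ ≤ 2 * ((DL T).ncard - 2) * H :=
        Nat.mul_le_mul (Nat.mul_le_mul_left _ (by omega)) h3

theorem rlx_log {V : Type} [Fintype V] {T : SimpleGraph V} (hT : T.IsTree)
    (h1 : 1 ≤ T.edgeSet.ncard) : ∃ M, Rlx T M ∧
    M ≤ T.edgeSet.ncard + 2 * ((DL T).ncard - 2) * Nat.log 2 ((DL T).ncard - 1) := by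
  rcases Nat.lt_or_ge 2 (DL T).ncard with h2 | h2
  · have h3 : (DL T).Nonempty := by
      rw [← Set.ncard_pos (Set.toFinite _)]
      omega
    obtain ⟨r, hr⟩ := h3
    obtain ⟨key, hkey⟩ := Pool.Agent.TH368.GD.log_holds V T r hT hr
    exact rlx_of_cert hT hr hkey
  · exact ⟨_, rlx_small hT h1 h2, Nat.le_add_right _ _⟩

/-- if the vertices with three neighbours which are not leaves lie on a path -/
theorem rlx_path {V : Type} [Fintype V] {T : SimpleGraph V} (hT : T.IsTree)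
    (h1 : 1 ≤ T.edgeSet.ncard)
    (hP : ∃ (x y : V) (q : T.Walk x y), q.IsPath ∧ ∀ z ∈ Br T, z ∈ q.support) :
    ∃ M, Rlx T M ∧ M ≤ T.edgeSet.ncard + 2 * ((DL T).ncard - 2) := by
  by_cases hne : (DL T).Nonempty
  · obtain ⟨r, hr, key, hkey⟩ := Pool.Agent.TH368.GD.path_holds V T hT hne hP
    obtain ⟨M, h2, h3⟩ := rlx_of_cert hT hr hkey
    exact ⟨M, h2, by rw [Nat.mul_one] at h3; exact h3⟩
  · rw [Set.not_nonempty_iff_eq_empty] at hne
    exact ⟨_, rlx_small hT h1 (by rw [hne, Set.ncard_empty]; omega), Nat.le_add_right _ _⟩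

/-- lobsters -/
theorem rlx_lob {V : Type} [Fintype V] {T : SimpleGraph V} (hT : T.IsTree)
    (h1 : 1 ≤ T.edgeSet.ncard)
    (hP : ∃ (x y : V) (q : T.Walk x y), q.IsPath ∧ ∀ z, ∃ u ∈ q.support, T.dist u z ≤ 2) :
    ∃ M, Rlx T M ∧ M ≤ T.edgeSet.ncard + ((DL T).ncard - 2) := by
  by_cases hne : (DL T).Nonempty
  · obtain ⟨r, hr, key, hkey⟩ := Pool.Agent.TH368.GD.lob_holds V T hT hne hP
    obtain ⟨v, p, Js, hD, hp, hJ⟩ := Pool.Agent.TH368.GD.dfs_holds V T r key hT hr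
    obtain ⟨M, c, s, hG, hM⟩ :=
      Pool.Agent.TH368.GD.wrdLob_holds _ p Js h1 hD.enum hD.dfs hD.jmp (hkey v p Js hD)
    exact ⟨M, rlx_of_enum hT hD.enum hD.inj hD.surj (fun x y h => (hD.adj x y).1 h) hG, by omega⟩
  · rw [Set.not_nonempty_iff_eq_empty] at hne
    exact ⟨_, rlx_small hT h1 (by rw [hne, Set.ncard_empty]; omega), Nat.le_add_right _ _⟩

theorem rlx_lin {V : Type} [Fintype V] {T : SimpleGraph V} (hT : T.IsTree)
    (h1 : 1 ≤ T.edgeSet.ncard) : ∃ M, Rlx T M ∧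
    M ≤ T.edgeSet.ncard + 12 * ((DL T).ncard - 2) := by
  obtain ⟨v, p, w, hO, hinj, hsurj, hadj, hw⟩ := Pool.Agent.TH368.GD.exists_ord hT h1
  obtain ⟨M, c, s, hG, hM⟩ := Pool.Agent.TH368.GD.W3.wrd3 h1 (Pool.Agent.TH368.GD.C2.lv3 hO)
  refine ⟨M, rlx_of_enum hT (Pool.Agent.TH56.CL.enu _ _ _ hO).1 hinj hsurj hadj hG, hM.trans ?_⟩
  have h2 := Pool.Agent.TH368.GD.C2.cost_lin hO
  have h3 : ∑ k ∈ Pool.Agent.TH56.CL.Jmp T.edgeSet.ncard p w,
      ((4 * 2 ^ (Pool.Agent.TH56.CL.lvl p w k / 2) - 1) + 1) =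
      ∑ k ∈ Pool.Agent.TH56.CL.Jmp T.edgeSet.ncard p w,
        4 * 2 ^ (Pool.Agent.TH56.CL.lvl p w k / 2) := by
    refine sum_congr rfl fun k _ => ?_
    have : 1 ≤ 2 ^ (Pool.Agent.TH56.CL.lvl p w k / 2) := Nat.one_le_pow _ _ (by norm_num)
    omega
  rw [h3]
  omega

/-- both bounds -/
theorem rlx_both {V : Type} [Fintype V] {T : SimpleGraph V} (hT : T.IsTree)
    (h1 : 1 ≤ T.edgeSet.ncard) : ∃ M, Rlx T M ∧
    M ≤ T.edgeSet.ncard + 2 * ((DL T).ncard - 2) * min (Nat.log 2 ((DL T).ncard - 1)) 6 := by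
  rcases Nat.lt_or_ge 6 (Nat.log 2 ((DL T).ncard - 1)) with h | h
  · obtain ⟨M, h2, h3⟩ := rlx_lin hT h1
    refine ⟨M, h2, h3.trans ?_⟩
    rw [min_eq_right h.le]
    omega
  · obtain ⟨M, h2, h3⟩ := rlx_log hT h1
    refine ⟨M, h2, ?_⟩
    rw [min_eq_left h]
    exact h3

/-- the form used in the applications -/
theorem Rlx.bip {V : Type} [Fintype V] {T : SimpleGraph V} {M : ℕ} (hR : Rlx T M)
    (h1 : 1 ≤ T.edgeSet.ncard) (col : V → Bool) (hcol : ∀ u v, T.Adj u v → col u ≠ col v)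
    (b : Bool) :
    ∃ (θ : ℕ) (f : V → ℕ), Function.Injective f ∧ (∀ x, f x ≤ M) ∧ 1 ≤ θ ∧ θ ≤ M ∧
      (∀ x, col x = b ↔ f x < θ) ∧
      (∀ x y, T.Adj x y → (f x < θ ∧ θ ≤ f y) ∨ (f y < θ ∧ θ ≤ f x)) ∧
      (∀ x y x' y', T.Adj x y → T.Adj x' y' → f x < θ → f x' < θ →
        f y + f x' = f y' + f x → x = x' ∧ y = y') := by
  classical
  obtain ⟨θ, f, f1, f2, f3, f4⟩ := hR col b hcol
  have hadj : ∀ x y, T.Adj x y → (f x < θ ∧ θ ≤ f y) ∨ (f y < θ ∧ θ ≤ f x) := by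
    intro x y hxy
    have h2 := hcol x y hxy
    have h3 := f3 x
    have h4 := f3 y
    by_cases h5 : f x < θ <;> by_cases h6 : f y < θ
    · exact absurd ((h3.2 h5).trans (h4.2 h6).symm) h2
    · exact Or.inl ⟨h5, not_lt.1 h6⟩
    · exact Or.inr ⟨h6, not_lt.1 h5⟩
    · exfalso
      have h7 : col x ≠ b := fun h => h5 (h3.1 h)
      have h8 : col y ≠ b := fun h => h6 (h4.1 h)
      revert h2 h7 h8
      cases col x <;> cases col y <;> cases b <;> simp
  obtain ⟨x0, y0, h0⟩ : ∃ x y, T.Adj x y := by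
    obtain ⟨e, he⟩ := (Set.ncard_pos (Set.toFinite _)).1 h1
    induction e using Sym2.ind with
    | _ x y => exact ⟨x, y, he⟩
  refine ⟨θ, f, f1, f2, ?_, ?_, f3, hadj, ?_⟩
  · rcases hadj x0 y0 h0 with h | h <;> omega
  · have h2 := f2 x0
    have h3 := f2 y0
    rcases hadj x0 y0 h0 with h | h <;> omega
  · intro x y x' y' hxy hxy' hx hx' hd
    have h2 : θ ≤ f y := by
      rcases hadj x y hxy with h | h <;> omega
    have h3 : θ ≤ f y' := by
      rcases hadj x' y' hxy' with h | h <;> omega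
    have h4 := f4 x y x' y' hxy hxy' (by omega)
    rcases Sym2.eq_iff.1 h4 with h5 | h5
    · exact h5
    · exfalso
      rw [h5.1] at hx
      omega

end Pool.Agent.TH56.CM
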